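import Mathlib
import Pool.Agent.E8helper29.Zn.Fin

/-!
The number `N(n,ε)` of segments of a zonotope approximating the Euclidean ball of dimension `n`
up to `ε` is `n ε^(-2(n-1)/(n+2))`, up to powers of `log (n/ε)`, jointly for all `n ≥ 1` and all
`0 < ε ≤ 1/2`.
-/

set_option autoImplicit false

open scoped RealInnerProductSpace

namespace Pool.Agent.Results.MP_afcad2_gt.JointOrderH29

/-- there are `N` vectors `x_j` of Euclidean `n`-space with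
`(1-ε)|v| ≤ ∑ |⟨v,x_j⟩| ≤ (1+ε)|v|` for all `v` -/
def Approx (n N : ℕ) (ε : ℝ) : Prop :=
  ∃ x : Fin N → EuclideanSpace ℝ (Fin n), ∀ v : EuclideanSpace ℝ (Fin n),
    (1 - ε) * ‖v‖ ≤ ∑ j, |⟪v, x j⟫| ∧ ∑ j, |⟪v, x j⟫| ≤ (1 + ε) * ‖v‖

/-- the function `f(n,ε) = n ε^(-2(n-1)/(n+2))` -/
noncomputable def f (n : ℕ) (ε : ℝ) : ℝ := n * (1 / ε) ^ (2 * ((n : ℝ) - 1) / (n + 2))

theorem result : ∃ c C : ℝ, 0 < c ∧ 0 < C ∧ ∀ (n : ℕ) (ε : ℝ), 1 ≤ n → 0 < ε → ε ≤ 1 / 2 →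
    (∀ N : ℕ, Approx n N ε → c * f n ε / Real.log (n / ε) ^ 10 ≤ N) ∧
    ∃ N : ℕ, Approx n N ε ∧ (N : ℝ) ≤ C * f n ε * Real.log (n / ε) ^ 5 :=
  Pool.Agent.E8helper29.Zn.joint

end Pool.Agent.Results.MP_afcad2_gt.JointOrderH29
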